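import Mathlib

set_option autoImplicit false

namespace Pool.Agent.Results.MP_b298ef_co.PlateauedParity

open Finset

/-- The vector space `F_2^n`. -/
abbrev V (n : ℕ) := Fin n → ZMod 2

/-- The standard inner product on `F_2^n`. -/
def ip {n : ℕ} (u x : V n) : ZMod 2 := ∑ i, u i * x i

/-- `(-1)^e`, as an integer. -/
def sgn (e : ZMod 2) : ℤ := if e = 0 then 1 else -1

/-- The Walsh transform `W_F(u,v) = ∑_x (-1)^{v·F(x)+u·x}`. -/
def walsh {n : ℕ} (F : V n → V n) (u v : V n) : ℤ := ∑ x, sgn (ip v (F x) + ip u x)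

/-- `F` is APN: for `a ≠ 0` and all `b` the equation `F(x)+F(x+a)=b` has `0` or `2` solutions. -/
def IsAPN {n : ℕ} (F : V n → V n) : Prop :=
  ∀ a : V n, a ≠ 0 → ∀ b : V n,
    (univ.filter fun x => F x + F (x + a) = b).card = 0 ∨
    (univ.filter fun x => F x + F (x + a) = b).card = 2

/-- `F` is plateaued: for every `v ≠ 0` there is a real `l ≥ 0` with `W_F(u,v) ∈ {0, l, -l}` for
all `u`. -/
def IsPlateaued {n : ℕ} (F : V n → V n) : Prop :=
  ∀ v : V n, v ≠ 0 → ∃ l : ℝ, 0 ≤ l ∧ ∀ u : V n,
    (walsh F u v : ℝ) = 0 ∨ (walsh F u v : ℝ) = l ∨ (walsh F u v : ℝ) = -l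

/-- The graph `G_F` of `F`, a subset of `F_2^n × F_2^n`. -/
def graph {n : ℕ} (F : V n → V n) : Finset (V n × V n) := univ.image fun x => (x, F x)

/-- The exclude multiplicity of `p`: the number of 3-element subsets of `G_F` with sum `p`. -/
def excludeMult {n : ℕ} (F : V n → V n) (p : V n × V n) : ℕ :=
  (((graph F).powersetCard 3).filter fun T => ∑ q ∈ T, q = p).card

/-! ### signs and characters -/

lemma sgn_add (a b : ZMod 2) : sgn (a + b) = sgn a * sgn b := by
  revert a b; unfold sgn; decide

lemma sgn_zero : sgn 0 = 1 := by simp [sgn]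

lemma sgn_sq (a : ZMod 2) : sgn a * sgn a = 1 := by
  revert a; unfold sgn; decide

variable {n : ℕ}

lemma ip_add_right (u x y : V n) : ip u (x + y) = ip u x + ip u y := by
  simp [ip, mul_add, Finset.sum_add_distrib]

lemma ip_add_left (u v x : V n) : ip (u + v) x = ip u x + ip v x := by
  simp [ip, add_mul, Finset.sum_add_distrib]

lemma ip_zero_left (x : V n) : ip 0 x = 0 := by simp [ip]

lemma ip_zero_right (x : V n) : ip x 0 = 0 := by simp [ip]

lemma add_self (x : V n) : x + x = 0 := by
  funext i; exact CharTwo.add_self_eq_zero (x i)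

lemma add_eq_zero' (x y : V n) : x + y = 0 ↔ x = y := by
  constructor
  · intro h
    have : x + y + y = 0 + y := by rw [h]
    rwa [add_assoc, add_self, add_zero, zero_add] at this
  · rintro rfl; exact add_self x

lemma card_V : Fintype.card (V n) = 2 ^ n := by
  simp [V]

/-- orthogonality -/
lemma sum_sgn (x : V n) : ∑ u : V n, sgn (ip u x) = if x = 0 then 2 ^ n else 0 := by
  split_ifs with h
  · subst h
    simp [ip_zero_right, sgn_zero]
  · obtain ⟨i, hi⟩ : ∃ i, x i ≠ 0 := by
      by_contra hcon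
      push Not at hcon
      exact h (funext hcon)
    have hi1 : x i = 1 := by
      revert hi; generalize x i = t; revert t; decide
    have hflip : ∀ u : V n, sgn (ip (u + Pi.single i 1) x) = - sgn (ip u x) := by
      intro u
      rw [ip_add_left, sgn_add]
      have : ip (Pi.single i 1 : V n) x = 1 := by
        simp [ip, Pi.single_apply, hi1]
      rw [this]
      simp [sgn]
    have h1 : ∑ u : V n, sgn (ip u x) = ∑ u : V n, sgn (ip (u + Pi.single i 1) x) :=
      (Equiv.sum_comp (Equiv.addRight (Pi.single i 1 : V n)) (fun u => sgn (ip u x))).symm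
    have h2 : ∑ u : V n, sgn (ip (u + Pi.single i 1) x) = - ∑ u : V n, sgn (ip u x) := by
      rw [← Finset.sum_neg_distrib]
      exact Finset.sum_congr rfl fun u _ => hflip u
    linarith [h1, h2]

lemma sum_sgn' (x : V n) : ∑ v : V n, sgn (ip v x) = if x = 0 then 2 ^ n else 0 := sum_sgn x

/-- the sign function attached to a component -/
def g (F : V n → V n) (v x : V n) : ℤ := sgn (ip v (F x))

lemma walsh_eq (F : V n → V n) (u v : V n) :
    walsh F u v = ∑ x, g F v x * sgn (ip u x) := by
  unfold walsh g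
  exact Finset.sum_congr rfl fun x _ => sgn_add _ _

lemma inv_one (F : V n → V n) (v a : V n) :
    ∑ u, walsh F u v * sgn (ip u a) = 2 ^ n * g F v a := by
  have h1 : ∀ u : V n, walsh F u v * sgn (ip u a) = ∑ x, g F v x * sgn (ip u (x + a)) := by
    intro u
    rw [walsh_eq, Finset.sum_mul]
    refine Finset.sum_congr rfl fun x _ => ?_
    rw [ip_add_right, sgn_add]; ring
  rw [Finset.sum_congr rfl fun u _ => h1 u, Finset.sum_comm]
  have h2 : ∀ x : V n, ∑ u : V n, g F v x * sgn (ip u (x + a)) =
      if x = a then 2 ^ n * g F v a else 0 := by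
    intro x
    rw [← Finset.mul_sum, sum_sgn]
    by_cases hx : x = a
    · subst hx; simp [add_self]; ring
    · have : x + a ≠ 0 := fun h => hx ((add_eq_zero' x a).1 h)
      simp [hx, this]
  rw [Finset.sum_congr rfl fun x _ => h2 x]
  simp

lemma parseval (F : V n → V n) (v : V n) :
    ∑ u, walsh F u v * walsh F u v = 2 ^ n * 2 ^ n := by
  have h1 : ∀ u : V n, walsh F u v * walsh F u v = ∑ a, g F v a * (walsh F u v * sgn (ip u a)) := by
    intro u
    conv_lhs => rw [walsh_eq F u v]
    rw [← walsh_eq F u v, walsh_eq F u v, Finset.sum_mul]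
    refine Finset.sum_congr rfl fun a _ => ?_
    ring
  rw [Finset.sum_congr rfl fun u _ => h1 u, Finset.sum_comm]
  have h2 : ∀ a : V n, ∑ u : V n, g F v a * (walsh F u v * sgn (ip u a)) = 2 ^ n := by
    intro a
    rw [← Finset.mul_sum, inv_one]
    have := sgn_sq (ip v (F a))
    unfold g
    linear_combination (2 ^ n) * this
  rw [Finset.sum_congr rfl fun a _ => h2 a]
  simp

/-- third convolution power -/
lemma inv_three (F : V n → V n) (v a : V n) :
    ∑ u, walsh F u v ^ 3 * sgn (ip u a) =
      2 ^ n * ∑ x, ∑ y, g F v x * g F v y * g F v (x + y + a) := by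
  have h1 : ∀ u : V n, walsh F u v ^ 3 * sgn (ip u a) =
      ∑ x, ∑ y, (g F v x * g F v y) * (walsh F u v * sgn (ip u (x + y + a))) := by
    intro u
    have : walsh F u v ^ 3 * sgn (ip u a) =
        walsh F u v * (walsh F u v * (walsh F u v * sgn (ip u a))) := by ring
    rw [this]
    conv_lhs => rw [walsh_eq F u v]
    rw [← walsh_eq F u v]
    conv_lhs => rw [show walsh F u v * (walsh F u v * (walsh F u v * sgn (ip u a))) =
      (∑ x, g F v x * sgn (ip u x)) * ((∑ y, g F v y * sgn (ip u y)) *
        (walsh F u v * sgn (ip u a))) by rw [← walsh_eq F u v]]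
    rw [Finset.sum_mul]
    refine Finset.sum_congr rfl fun x _ => ?_
    rw [Finset.sum_mul, Finset.mul_sum]
    refine Finset.sum_congr rfl fun y _ => ?_
    rw [ip_add_right, ip_add_right, sgn_add, sgn_add]
    ring
  rw [Finset.sum_congr rfl fun u _ => h1 u, Finset.sum_comm, Finset.mul_sum]
  refine Finset.sum_congr rfl fun x _ => ?_
  rw [Finset.sum_comm, Finset.mul_sum]
  refine Finset.sum_congr rfl fun y _ => ?_
  rw [← Finset.mul_sum, inv_one]
  ring

/-- structure of the components of a plateaued function -/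
lemma plateaued_structure (F : V n → V n) (hP : IsPlateaued F) (v : V n) (hv : v ≠ 0) :
    ∃ t : ℕ, n ≤ 2 * t ∧
      (∀ u, walsh F u v = 0 ∨ walsh F u v = 2 ^ t ∨ walsh F u v = -2 ^ t) ∧
      (2 * t = n → ∀ u, walsh F u v ≠ 0) := by
  obtain ⟨l, hl0, hl⟩ := hP v hv
  have hex : ∃ u0, walsh F u0 v ≠ 0 := by
    by_contra hcon
    push Not at hcon
    have h := parseval F v
    simp only [hcon, mul_zero, Finset.sum_const_zero] at h
    have : (0 : ℤ) < 2 ^ n * 2 ^ n := by positivity
    omega
  obtain ⟨u0, hu0⟩ := hex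
  obtain ⟨m, hm⟩ : ∃ m : ℕ, l = (m : ℝ) := by
    rcases hl u0 with h | h | h
    · exact absurd (by exact_mod_cast h) hu0
    · have h0 : 0 ≤ walsh F u0 v := by
        have : (0 : ℝ) ≤ (walsh F u0 v : ℝ) := by rw [h]; exact hl0
        exact_mod_cast this
      refine ⟨(walsh F u0 v).toNat, ?_⟩
      have : (((walsh F u0 v).toNat : ℤ)) = walsh F u0 v := Int.toNat_of_nonneg h0
      rw [← h]; exact_mod_cast this.symm
    · have h0 : 0 ≤ - walsh F u0 v := by
        have : (0 : ℝ) ≤ -(walsh F u0 v : ℝ) := by rw [h]; simpa using hl0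
        exact_mod_cast this
      refine ⟨(- walsh F u0 v).toNat, ?_⟩
      have h2 : (((- walsh F u0 v).toNat : ℤ)) = - walsh F u0 v := Int.toNat_of_nonneg h0
      have h3 : (((- walsh F u0 v).toNat : ℕ) : ℝ) = -(walsh F u0 v : ℝ) := by exact_mod_cast h2
      rw [h3, h]; ring
  have hW : ∀ u, walsh F u v = 0 ∨ walsh F u v = (m : ℤ) ∨ walsh F u v = -(m : ℤ) := by
    intro u
    rcases hl u with h | h | h
    · left; exact_mod_cast h
    · right; left; rw [hm] at h; exact_mod_cast h
    · right; right; rw [hm] at h; exact_mod_cast h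
  have hs : m ^ 2 * (univ.filter fun u => walsh F u v ≠ 0).card = (2 ^ n) ^ 2 := by
    have h := parseval F v
    have h2 : ∀ u : V n, walsh F u v * walsh F u v =
        if walsh F u v ≠ 0 then (m : ℤ) ^ 2 else 0 := by
      intro u
      by_cases h0 : walsh F u v = 0
      · simp [h0]
      · rw [if_pos h0]
        rcases hW u with h | h | h
        · exact absurd h h0
        · rw [h]; ring
        · rw [h]; ring
    rw [Finset.sum_congr rfl fun u _ => h2 u, ← Finset.sum_filter, Finset.sum_const,
      nsmul_eq_mul] at h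
    have h3 : ((m ^ 2 * (univ.filter fun u => walsh F u v ≠ 0).card : ℕ) : ℤ) =
        (((2 ^ n) ^ 2 : ℕ) : ℤ) := by
      push_cast
      linarith
    exact_mod_cast h3
  have hsle : (univ.filter fun u => walsh F u v ≠ 0).card ≤ 2 ^ n := by
    calc (univ.filter fun u => walsh F u v ≠ 0).card ≤ (univ : Finset (V n)).card :=
          Finset.card_filter_le _ _
      _ = 2 ^ n := by rw [Finset.card_univ, card_V]
  have hmdvd : m ∣ 2 ^ n :=
    (Nat.pow_dvd_pow_iff two_ne_zero).1 (Dvd.intro _ hs)
  obtain ⟨t, ht, hmt⟩ := (Nat.dvd_prime_pow Nat.prime_two).1 hmdvd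
  subst hmt
  refine ⟨t, ?_, ?_, ?_⟩
  · by_contra hcon
    push Not at hcon
    have h4 : (2 ^ n) ^ 2 ≤ (2 ^ t) ^ 2 * 2 ^ n := by
      rw [← hs]; exact Nat.mul_le_mul_left _ hsle
    rw [← pow_mul, ← pow_mul, ← pow_add] at h4
    have := (Nat.pow_le_pow_iff_right (by norm_num : 1 < 2)).1 h4
    omega
  · intro u
    have := hW u
    push_cast at this
    exact this
  · intro h2t u hu
    have hcard : (univ.filter fun u => walsh F u v ≠ 0).card = 2 ^ n := by
      have h5 : (2 ^ t) ^ 2 = 2 ^ n := by rw [← pow_mul, mul_comm t 2, h2t]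
      rw [h5] at hs
      have h6 : 2 ^ n * (univ.filter fun u => walsh F u v ≠ 0).card = 2 ^ n * 2 ^ n := by
        rw [hs]; ring
      exact Nat.eq_of_mul_eq_mul_left (by positivity) h6
    have huniv : (univ.filter fun u => walsh F u v ≠ 0) = univ := by
      apply Finset.eq_univ_of_card
      rw [hcard, card_V]
    have : u ∈ (univ.filter fun u => walsh F u v ≠ 0) := by rw [huniv]; exact mem_univ _
    exact (Finset.mem_filter.1 this).2 hu

lemma conv (F : V n → V n) (v : V n) (t : ℕ)
    (h : ∀ u, walsh F u v = 0 ∨ walsh F u v = 2 ^ t ∨ walsh F u v = -2 ^ t) (a : V n) :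
    ∑ x, ∑ y, g F v x * g F v y * g F v (x + y + a) = 2 ^ (2 * t) * g F v a := by
  have h1 := inv_three F v a
  have h2 : ∀ u, walsh F u v ^ 3 * sgn (ip u a) = 2 ^ (2 * t) * (walsh F u v * sgn (ip u a)) := by
    intro u
    have : walsh F u v ^ 3 = 2 ^ (2 * t) * walsh F u v := by
      rw [pow_mul']
      rcases h u with h | h | h
      · rw [h]; ring
      · rw [h]; ring
      · rw [h]; ring
    rw [this]; ring
  rw [Finset.sum_congr rfl fun u _ => h2 u, ← Finset.mul_sum, inv_one] at h1
  have h3 : (2 : ℤ) ^ n ≠ 0 := by positivity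
  apply mul_left_cancel₀ h3
  linarith

/-- the number of pairs `(x,y)` with `F(x)+F(y)+F(x+y+a) = b` -/
def cnt (F : V n → V n) (a b : V n) : ℕ :=
  (univ.filter fun q : V n × V n => F q.1 + F q.2 + F (q.1 + q.2 + a) = b).card

lemma count_formula (F : V n → V n) (a b : V n) :
    (2 : ℤ) ^ n * (cnt F a b : ℤ) =
      ∑ v, sgn (ip v b) * ∑ x, ∑ y, g F v x * g F v y * g F v (x + y + a) := by
  have h1 : ∀ v : V n, sgn (ip v b) * ∑ x, ∑ y, g F v x * g F v y * g F v (x + y + a) =
      ∑ q : V n × V n, sgn (ip v (F q.1 + F q.2 + F (q.1 + q.2 + a) + b)) := by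
    intro v
    rw [Fintype.sum_prod_type, Finset.mul_sum]
    refine Finset.sum_congr rfl fun x _ => ?_
    rw [Finset.mul_sum]
    refine Finset.sum_congr rfl fun y _ => ?_
    simp only [ip_add_right v (F x + F y + F (x + y + a)) b,
      ip_add_right v (F x + F y) (F (x + y + a)), ip_add_right v (F x) (F y), sgn_add, g]
    ring
  rw [Finset.sum_congr rfl fun v _ => h1 v, Finset.sum_comm]
  have h2 : ∀ q : V n × V n, ∑ v : V n, sgn (ip v (F q.1 + F q.2 + F (q.1 + q.2 + a) + b)) =
      if F q.1 + F q.2 + F (q.1 + q.2 + a) = b then 2 ^ n else 0 := by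
    intro q
    rw [sum_sgn]
    simp only [add_eq_zero']
  rw [Finset.sum_congr rfl fun q _ => h2 q, ← Finset.sum_filter, Finset.sum_const, nsmul_eq_mul]
  unfold cnt
  ring

lemma cnt_eq (F : V n → V n) (t : V n → ℕ)
    (ht : ∀ v, v ≠ 0 → n ≤ 2 * t v ∧
      ∀ u, walsh F u v = 0 ∨ walsh F u v = 2 ^ t v ∨ walsh F u v = -2 ^ t v) (a b : V n) :
    (cnt F a b : ℤ) = 2 ^ n + ∑ v ∈ univ.erase (0 : V n),
      2 ^ (2 * t v - n) * sgn (ip v (F a + b)) := by
  have h1 := count_formula F a b
  rw [← Finset.add_sum_erase univ _ (Finset.mem_univ (0 : V n))] at h1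
  have h0 : sgn (ip 0 b) * ∑ x, ∑ y, g F 0 x * g F 0 y * g F 0 (x + y + a) = 2 ^ n * 2 ^ n := by
    simp [g, ip_zero_left, sgn_zero]
  rw [h0] at h1
  have h2 : ∀ v ∈ univ.erase (0 : V n),
      sgn (ip v b) * ∑ x, ∑ y, g F v x * g F v y * g F v (x + y + a) =
      2 ^ n * (2 ^ (2 * t v - n) * sgn (ip v (F a + b))) := by
    intro v hv
    have hv0 : v ≠ 0 := (Finset.mem_erase.1 hv).1
    obtain ⟨h3, h4⟩ := ht v hv0
    rw [conv F v (t v) h4 a, ip_add_right, sgn_add]
    have h5 : (2 : ℤ) ^ (2 * t v) = 2 ^ n * 2 ^ (2 * t v - n) := by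
      rw [← pow_add]; congr 1; omega
    rw [h5]
    unfold g
    ring
  rw [Finset.sum_congr rfl h2, ← Finset.mul_sum, ← mul_add] at h1
  exact mul_left_cancel₀ (by positivity) h1

lemma cnt_apn (F : V n → V n) (hA : IsAPN F) (a : V n) :
    cnt F a (F a) = 2 ^ n + (2 ^ n - 1) * 2 := by
  have h1 : cnt F a (F a) =
      ∑ x : V n, (univ.filter fun y : V n => F x + F y + F (x + y + a) = F a).card := by
    unfold cnt
    rw [Finset.card_filter, Fintype.sum_prod_type]
    refine Finset.sum_congr rfl fun x _ => ?_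
    rw [Finset.card_filter]
  rw [h1, ← Finset.add_sum_erase univ _ (Finset.mem_univ a)]
  have h2 : (univ.filter fun y : V n => F a + F y + F (a + y + a) = F a).card = 2 ^ n := by
    have : (univ.filter fun y : V n => F a + F y + F (a + y + a) = F a) = univ := by
      ext y
      simp only [mem_filter, mem_univ, true_and, iff_true]
      have : a + y + a = y := by rw [add_comm a y, add_assoc, add_self, add_zero]
      rw [this, add_assoc, add_self, add_zero]
    rw [this, Finset.card_univ, card_V]
  rw [h2]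
  have h3 : ∀ x ∈ univ.erase a,
      (univ.filter fun y : V n => F x + F y + F (x + y + a) = F a).card = 2 := by
    intro x hx
    have hxa : x ≠ a := (Finset.mem_erase.1 hx).1
    have hd : x + a ≠ 0 := fun h => hxa ((add_eq_zero' x a).1 h)
    have heq : (univ.filter fun y : V n => F x + F y + F (x + y + a) = F a) =
        (univ.filter fun y : V n => F y + F (y + (x + a)) = F x + F a) := by
      ext y
      simp only [mem_filter, mem_univ, true_and]
      have e1 : y + (x + a) = x + y + a := by ring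
      rw [e1]
      constructor
      · intro h
        calc F y + F (x + y + a) = (F x + F x) + (F y + F (x + y + a)) := by
              rw [add_self, zero_add]
          _ = F x + (F x + F y + F (x + y + a)) := by ring
          _ = F x + F a := by rw [h]
      · intro h
        calc F x + F y + F (x + y + a) = F x + (F y + F (x + y + a)) := by ring
          _ = F x + (F x + F a) := by rw [h]
          _ = (F x + F x) + F a := by ring
          _ = F a := by rw [add_self, zero_add]
    rw [heq]
    rcases hA (x + a) hd (F x + F a) with h | h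
    · exfalso
      have : a ∈ (univ.filter fun y : V n => F y + F (y + (x + a)) = F x + F a) := by
        simp only [mem_filter, mem_univ, true_and]
        have : a + (x + a) = x := by rw [add_comm x a, ← add_assoc, add_self, zero_add]
        rw [this, add_comm]
      rw [Finset.card_eq_zero] at h
      rw [h] at this
      exact absurd this (Finset.notMem_empty _)
    · exact h
  rw [Finset.sum_congr rfl h3, Finset.sum_const, Finset.card_erase_of_mem (mem_univ a),
    Finset.card_univ, card_V]
  simp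

lemma mem_graph (F : V n → V n) (p : V n × V n) : p ∈ graph F ↔ p.2 = F p.1 := by
  unfold graph
  simp only [mem_image, mem_univ, true_and]
  constructor
  · rintro ⟨x, rfl⟩; rfl
  · intro h; exact ⟨p.1, by rw [← h]⟩

/-- ordered pairs versus 3-subsets -/
lemma cnt_eq_mult (F : V n → V n) (a b : V n) (hp : (a, b) ∉ graph F) :
    cnt F a b = 6 * excludeMult F (a, b) := by
  classical
  have hab : F a ≠ b := fun h => hp ((mem_graph F (a, b)).2 h.symm)
  unfold cnt excludeMult
  set A := univ.filter fun q : V n × V n => F q.1 + F q.2 + F (q.1 + q.2 + a) = b with hAdef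
  set B := ((graph F).powersetCard 3).filter fun T => ∑ q ∈ T, q = (a, b) with hBdef
  have hdist : ∀ q ∈ A, q.1 ≠ q.2 ∧ q.1 ≠ q.1 + q.2 + a ∧ q.2 ≠ q.1 + q.2 + a := by
    rintro ⟨x, y⟩ hq
    have hq' : F x + F y + F (x + y + a) = b := (Finset.mem_filter.1 hq).2
    refine ⟨?_, ?_, ?_⟩
    · intro h
      change x = y at h
      subst h
      apply hab
      rw [add_self, zero_add, add_self, zero_add] at hq'
      exact hq'
    · intro h
      change x = x + y + a at h
      have hya : y = a := by
        rw [← add_eq_zero']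
        have : x + (y + a) = x + 0 := by rw [add_zero, ← add_assoc]; exact h.symm
        exact add_left_cancel this
      subst hya
      apply hab
      have e : x + y + y = x := by rw [add_assoc, add_self, add_zero]
      rw [e] at hq'
      rw [← hq']
      calc F y = (F x + F x) + F y := by rw [add_self, zero_add]
        _ = F x + F y + F x := by ring
    · intro h
      change y = x + y + a at h
      have hxa : x = a := by
        rw [← add_eq_zero']
        have : y + (x + a) = y + 0 := by
          rw [add_zero]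
          calc y + (x + a) = x + y + a := by ring
            _ = y := h.symm
        exact add_left_cancel this
      subst hxa
      apply hab
      have e : x + y + x = y := by
        calc x + y + x = (x + x) + y := by ring
          _ = y := by rw [add_self, zero_add]
      rw [e] at hq'
      rw [← hq']
      calc F x = F x + (F y + F y) := by rw [add_self, add_zero]
        _ = F x + F y + F y := by ring
  have hmap : ∀ q ∈ A,
      ({(q.1, F q.1), (q.2, F q.2), (q.1 + q.2 + a, F (q.1 + q.2 + a))} :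
        Finset (V n × V n)) ∈ B := by
    intro q hq
    obtain ⟨h12, h13, h23⟩ := hdist q hq
    have hq' : F q.1 + F q.2 + F (q.1 + q.2 + a) = b := (Finset.mem_filter.1 hq).2
    have e12 : (q.1, F q.1) ≠ (q.2, F q.2) := fun h => h12 (Prod.ext_iff.1 h).1
    have e13 : (q.1, F q.1) ≠ (q.1 + q.2 + a, F (q.1 + q.2 + a)) :=
      fun h => h13 (Prod.ext_iff.1 h).1
    have e23 : (q.2, F q.2) ≠ (q.1 + q.2 + a, F (q.1 + q.2 + a)) :=
      fun h => h23 (Prod.ext_iff.1 h).1
    rw [hBdef, Finset.mem_filter, Finset.mem_powersetCard]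
    refine ⟨⟨?_, ?_⟩, ?_⟩
    · intro r hr
      simp only [Finset.mem_insert, Finset.mem_singleton] at hr
      rw [mem_graph]
      rcases hr with rfl | rfl | rfl <;> rfl
    · exact Finset.card_eq_three.2 ⟨_, _, _, e12, e13, e23, rfl⟩
    · rw [Finset.sum_insert, Finset.sum_insert, Finset.sum_singleton]
      · apply Prod.ext
        · change q.1 + (q.2 + (q.1 + q.2 + a)) = a
          calc q.1 + (q.2 + (q.1 + q.2 + a)) = (q.1 + q.1) + (q.2 + q.2) + a := by ring
            _ = a := by rw [add_self, add_self, zero_add, zero_add]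
        · change F q.1 + (F q.2 + F (q.1 + q.2 + a)) = b
          rw [← add_assoc]; exact hq'
      · simpa using e23
      · simp only [Finset.mem_insert, Finset.mem_singleton, not_or]
        exact ⟨e12, e13⟩
  rw [Finset.card_eq_sum_card_fiberwise (f := fun q : V n × V n =>
      ({(q.1, F q.1), (q.2, F q.2), (q.1 + q.2 + a, F (q.1 + q.2 + a))} :
        Finset (V n × V n))) hmap]
  have hfib : ∀ S ∈ B, (A.filter fun q : V n × V n =>
      ({(q.1, F q.1), (q.2, F q.2), (q.1 + q.2 + a, F (q.1 + q.2 + a))} :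
        Finset (V n × V n)) = S).card = 6 := by
    intro S hS
    rw [hBdef, Finset.mem_filter, Finset.mem_powersetCard] at hS
    obtain ⟨⟨hSg, hS3⟩, hSs⟩ := hS
    have hinj : Set.InjOn (Prod.fst : V n × V n → V n) (S : Set (V n × V n)) := by
      intro r hr r' hr' h
      have h1 := (mem_graph F r).1 (hSg (by exact_mod_cast hr))
      have h2 := (mem_graph F r').1 (hSg (by exact_mod_cast hr'))
      apply Prod.ext h
      rw [h1, h2, h]
    have hcard : (S.image Prod.fst).card = 3 := by
      rw [Finset.card_image_of_injOn hinj, hS3]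
    have heq : (A.filter fun q : V n × V n =>
        ({(q.1, F q.1), (q.2, F q.2), (q.1 + q.2 + a, F (q.1 + q.2 + a))} :
        Finset (V n × V n)) = S) = (S.image Prod.fst).offDiag := by
      ext q
      rw [Finset.mem_filter, Finset.mem_offDiag, Finset.mem_image, Finset.mem_image]
      constructor
      · rintro ⟨hq, hqS⟩
        refine ⟨⟨(q.1, F q.1), ?_, rfl⟩, ⟨(q.2, F q.2), ?_, rfl⟩, (hdist q hq).1⟩
        · rw [← hqS]; simp
        · rw [← hqS]; simp
      · rintro ⟨⟨r, hr, hr1⟩, ⟨r', hr', hr1'⟩, hne⟩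
        have er : r = (q.1, F q.1) := by
          refine Prod.ext_iff.2 ⟨hr1, ?_⟩
          change r.2 = F q.1
          rw [(mem_graph F r).1 (hSg hr), hr1]
        have er' : r' = (q.2, F q.2) := by
          refine Prod.ext_iff.2 ⟨hr1', ?_⟩
          change r'.2 = F q.2
          rw [(mem_graph F r').1 (hSg hr'), hr1']
        rw [er] at hr
        rw [er'] at hr'
        have hne' : (q.2, F q.2) ≠ (q.1, F q.1) := fun h => hne (Prod.ext_iff.1 h).1.symm
        have hr'' : (q.2, F q.2) ∈ S.erase (q.1, F q.1) := Finset.mem_erase.2 ⟨hne', hr'⟩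
        have hc1 : ((S.erase (q.1, F q.1)).erase (q.2, F q.2)).card = 1 := by
          rw [Finset.card_erase_of_mem hr'', Finset.card_erase_of_mem hr, hS3]
        obtain ⟨w, hw⟩ := Finset.card_eq_one.1 hc1
        have hSeq : S = {(q.1, F q.1), (q.2, F q.2), w} := by
          rw [← Finset.insert_erase hr, ← Finset.insert_erase hr'', hw]
        have hwmem : w ∈ (S.erase (q.1, F q.1)).erase (q.2, F q.2) := by
          rw [hw]; exact Finset.mem_singleton_self w
        have hw1 := Finset.mem_erase.1 hwmem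
        have hw2 := Finset.mem_erase.1 hw1.2
        have hwg := (mem_graph F w).1 (hSg hw2.2)
        have hsum : (q.1, F q.1) + ((q.2, F q.2) + w) = (a, b) := by
          rw [← hSs, hSeq, Finset.sum_insert, Finset.sum_insert, Finset.sum_singleton]
          · simpa using (Ne.symm hw1.1)
          · simp only [Finset.mem_insert, Finset.mem_singleton, not_or]
            exact ⟨fun h => hne' h.symm, Ne.symm hw2.1⟩
        have hs1 : q.1 + (q.2 + w.1) = a := (Prod.ext_iff.1 hsum).1
        have hs2 : F q.1 + (F q.2 + w.2) = b := (Prod.ext_iff.1 hsum).2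
        have hw_1 : w.1 = q.1 + q.2 + a := by
          rw [← hs1]
          calc w.1 = (q.1 + q.1) + (q.2 + q.2) + w.1 := by
                rw [add_self, add_self, zero_add, zero_add]
            _ = q.1 + q.2 + (q.1 + (q.2 + w.1)) := by ring
        have hweq : w = (q.1 + q.2 + a, F (q.1 + q.2 + a)) := by
          refine Prod.ext_iff.2 ⟨hw_1, ?_⟩
          change w.2 = F (q.1 + q.2 + a)
          rw [hwg, hw_1]
        refine ⟨?_, ?_⟩
        · rw [hAdef, Finset.mem_filter]
          refine ⟨mem_univ _, ?_⟩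
          rw [← hs2, hwg, hw_1]
          ring
        · rw [hSeq, hweq]
    rw [heq, Finset.offDiag_card, hcard]
  rw [Finset.sum_congr rfl hfib, Finset.sum_const, smul_eq_mul, mul_comm]

/-- the sum of the Walsh values `W_F(0,v)` over the hyperplane `c^⊥` -/
lemma hyperplane_sum (F : V n → V n) (c : V n) (hn : 1 ≤ n) :
    ∃ K : ℤ, ∑ v ∈ univ.filter (fun v : V n => ip v c = 0), walsh F 0 v = 2 ^ (n - 1) * K := by
  refine ⟨∑ x, ((if F x = 0 then 1 else 0) + (if F x = c then 1 else 0)), ?_⟩
  have h1 : ∀ v : V n, (2 : ℤ) * (if ip v c = 0 then walsh F 0 v else 0) =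
      ∑ x, (sgn (ip v (F x)) + sgn (ip v (F x + c))) := by
    intro v
    have hw : walsh F 0 v = ∑ x, sgn (ip v (F x)) := by
      unfold walsh
      refine Finset.sum_congr rfl fun x _ => ?_
      rw [ip_zero_left, add_zero]
    rw [hw]
    have h2 : ∑ x, (sgn (ip v (F x)) + sgn (ip v (F x + c))) =
        (1 + sgn (ip v c)) * ∑ x, sgn (ip v (F x)) := by
      rw [Finset.mul_sum]
      refine Finset.sum_congr rfl fun x _ => ?_
      rw [ip_add_right, sgn_add]; ring
    rw [h2]
    by_cases hc : ip v c = 0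
    · rw [if_pos hc, hc, sgn_zero]; ring
    · rw [if_neg hc]
      have : sgn (ip v c) = -1 := by simp [sgn, hc]
      rw [this]; ring
  have h3 : (2 : ℤ) * ∑ v ∈ univ.filter (fun v : V n => ip v c = 0), walsh F 0 v =
      2 * (2 ^ (n - 1) * ∑ x, ((if F x = 0 then 1 else 0) + (if F x = c then 1 else 0))) := by
    rw [Finset.sum_filter, Finset.mul_sum, Finset.sum_congr rfl fun v _ => h1 v, Finset.sum_comm]
    have hpow : (2 : ℤ) * 2 ^ (n - 1) = 2 ^ n := by
      rw [← pow_succ']; congr 1; omega
    rw [← mul_assoc, hpow, Finset.mul_sum]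
    refine Finset.sum_congr rfl fun x _ => ?_
    rw [Finset.sum_add_distrib, sum_sgn, sum_sgn]
    simp only [add_eq_zero']
    split_ifs <;> ring
  linarith

/-- `W_F(0,0) = 2^n` -/
lemma walsh_zero (F : V n → V n) : walsh F 0 0 = 2 ^ n := by
  unfold walsh
  simp [ip_zero_left, sgn_zero]

/-- **Main theorem.** Let `n ≥ 3` and let `F : F_2^n → F_2^n` be a plateaued APN function.  Then the
exclude multiplicity of every point outside the graph of `F` is odd. -/
theorem result (n : ℕ) (hn : 3 ≤ n) (F : V n → V n) (hA : IsAPN F) (hP : IsPlateaued F)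
    (p : V n × V n) (hp : p ∉ graph F) : Odd (excludeMult F p) := by
  classical
  obtain ⟨a, b⟩ := p
  have hst : ∀ v : V n, ∃ t : ℕ, v ≠ 0 → (n ≤ 2 * t ∧
      (∀ u, walsh F u v = 0 ∨ walsh F u v = 2 ^ t ∨ walsh F u v = -2 ^ t) ∧
      (2 * t = n → ∀ u, walsh F u v ≠ 0)) := by
    intro v
    by_cases hv : v = 0
    · exact ⟨0, fun h => absurd hv h⟩
    · obtain ⟨t, ht⟩ := plateaued_structure F hP v hv
      exact ⟨t, fun _ => ht⟩
  choose t ht using hst
  have hT := cnt_eq F t (fun v hv => ⟨(ht v hv).1, (ht v hv).2.1⟩) a b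
  have hT0 := cnt_eq F t (fun v hv => ⟨(ht v hv).1, (ht v hv).2.1⟩) a (F a)
  rw [cnt_eq_mult F a b hp] at hT
  rw [cnt_apn F hA a, add_self] at hT0
  simp only [ip_zero_right, sgn_zero, mul_one] at hT0
  set c := F a + b with hc
  set S : Finset (V n) := univ.filter (fun v : V n => ip v c = 0) with hS
  have h0S : (0 : V n) ∈ S := by
    rw [hS, Finset.mem_filter]; exact ⟨mem_univ _, ip_zero_left c⟩
  have hsplit : (∑ v ∈ univ.erase (0 : V n), (2 : ℤ) ^ (2 * t v - n) * sgn (ip v c)) +
      ∑ v ∈ univ.erase (0 : V n), (2 : ℤ) ^ (2 * t v - n) =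
      2 * ∑ v ∈ S.erase 0, (2 : ℤ) ^ (2 * t v - n) := by
    rw [← Finset.sum_add_distrib]
    have h1 : S.erase 0 = (univ.erase (0 : V n)).filter (fun v : V n => ip v c = 0) := by
      ext v
      simp only [hS, Finset.mem_erase, Finset.mem_filter, Finset.mem_univ, true_and, and_true]
    rw [h1, Finset.sum_filter, Finset.mul_sum]
    refine Finset.sum_congr rfl fun v _ => ?_
    by_cases hvc : ip v c = 0
    · rw [if_pos hvc, hvc, sgn_zero]; ring
    · rw [if_neg hvc]
      have : sgn (ip v c) = -1 := by simp [sgn, hvc]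
      rw [this]; ring
  set E : ℤ := ∑ v ∈ S.erase 0, (2 : ℤ) ^ (2 * t v - n) with hE
  have hpow1 : (1 : ℕ) ≤ 2 ^ n := Nat.one_le_two_pow
  push_cast [Nat.cast_sub hpow1] at hT0 hT
  have hpow2 : (2 : ℤ) ^ n = 2 * 2 ^ (n - 1) := by
    rw [← pow_succ']; congr 1; omega
  have hpow3 : (2 : ℤ) ^ (n - 1) = 2 * 2 ^ (n - 2) := by
    rw [← pow_succ']; congr 1; omega
  have hmain : 3 * (excludeMult F (a, b) : ℤ) = E + 1 - 2 * 2 ^ (n - 2) := by
    linarith
  -- `E` is even
  have hEeven : (2 : ℤ) ∣ E := by
    rcases Nat.even_or_odd' n with ⟨k, hk | hk⟩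
    · -- `n = 2k`
      have hk2 : 2 ≤ k := by omega
      have hq : ∀ v : V n, ∃ q : ℤ, v ≠ 0 → walsh F 0 v = 2 ^ k * q ∧
          (2 : ℤ) ∣ (2 : ℤ) ^ (2 * t v - n) - q := by
        intro v
        by_cases hv : v = 0
        · exact ⟨0, fun h => absurd hv h⟩
        · obtain ⟨h1, h2, h3⟩ := ht v hv
          by_cases htk : t v = k
          · have hne := h3 (by omega) 0
            have hexp : 2 * t v - n = 0 := by omega
            rcases h2 0 with h | h | h
            · exact absurd h hne
            · refine ⟨1, fun _ => ⟨by rw [h, htk, mul_one], ?_⟩⟩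
              rw [hexp]; norm_num
            · refine ⟨-1, fun _ => ⟨by rw [h, htk]; ring, ?_⟩⟩
              rw [hexp]; norm_num
          · have htk' : k + 1 ≤ t v := by omega
            have hexp : (2 : ℤ) ∣ (2 : ℤ) ^ (2 * t v - n) :=
              dvd_pow_self 2 (by omega)
            have hdiv : (2 : ℤ) ^ t v = 2 ^ k * (2 * 2 ^ (t v - k - 1)) := by
              rw [← pow_succ', ← pow_add]; congr 1; omega
            rcases h2 0 with h | h | h
            · exact ⟨0, fun _ => ⟨by rw [h, mul_zero], by simpa using hexp⟩⟩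
            · refine ⟨2 * 2 ^ (t v - k - 1), fun _ => ⟨by rw [h, hdiv], ?_⟩⟩
              exact dvd_sub hexp (dvd_mul_right 2 _)
            · refine ⟨-(2 * 2 ^ (t v - k - 1)), fun _ => ⟨by rw [h, hdiv]; ring, ?_⟩⟩
              exact dvd_sub hexp ((dvd_mul_right 2 _).neg_right)
      choose q hq using hq
      obtain ⟨K, hK⟩ := hyperplane_sum F c (by omega)
      rw [← hS, ← Finset.add_sum_erase S _ h0S, walsh_zero] at hK
      have h4 : ∑ v ∈ S.erase 0, walsh F 0 v = 2 ^ k * ∑ v ∈ S.erase 0, q v := by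
        rw [Finset.mul_sum]
        exact Finset.sum_congr rfl fun v hv => (hq v (Finset.mem_erase.1 hv).1).1
      rw [h4] at hK
      have h5 : (2 : ℤ) ^ n = 2 ^ k * (2 * 2 ^ (k - 1)) := by
        rw [← pow_succ', ← pow_add]; congr 1; omega
      have h6 : (2 : ℤ) ^ (n - 1) = 2 ^ k * (2 * 2 ^ (k - 2)) := by
        rw [← pow_succ', ← pow_add]; congr 1; omega
      rw [h5, h6] at hK
      have h7 : 2 * 2 ^ (k - 1) + ∑ v ∈ S.erase 0, q v = (2 * 2 ^ (k - 2)) * K := by
        have h8 : (2 : ℤ) ^ k ≠ 0 := by positivity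
        apply mul_left_cancel₀ h8
        linarith
      have h9 : (2 : ℤ) ∣ ∑ v ∈ S.erase 0, q v := by
        refine ⟨2 ^ (k - 2) * K - 2 ^ (k - 1), ?_⟩
        linarith
      have h10 : (2 : ℤ) ∣ E - ∑ v ∈ S.erase 0, q v := by
        rw [hE, ← Finset.sum_sub_distrib]
        exact Finset.dvd_sum fun v hv => (hq v (Finset.mem_erase.1 hv).1).2
      have := dvd_add h10 h9
      simpa using this
    · -- `n` odd
      rw [hE]
      refine Finset.dvd_sum fun v hv => ?_
      have h1 := (ht v (Finset.mem_erase.1 hv).1).1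
      exact dvd_pow_self 2 (by omega)
  obtain ⟨e, he⟩ := hEeven
  rw [he] at hmain
  have : Odd (excludeMult F (a, b) : ℤ) := by
    refine ⟨e - 2 ^ (n - 2) - (excludeMult F (a, b) : ℤ), ?_⟩
    linarith
  exact_mod_cast this

end Pool.Agent.Results.MP_b298ef_co.PlateauedParity
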